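import Mathlib

/-!
Lacunary integer forms in the plane: every short segment contains a point at which all of them but
one are close to integers, and a point at which all of them are far from integers.
-/

set_option autoImplicit false

namespace Pool.Agent.R248.LineSum

open Set Filter Topology Pointwise

/-- `x` is within `δ` of an integer. -/
def near (δ x : ℝ) : Prop := ∃ n : ℤ, |x - n| ≤ δ

lemma near_int (δ : ℝ) (hδ : 0 ≤ δ) (n : ℤ) : near δ n := ⟨n, by simpa using hδ⟩

lemma near_mono {δ δ' x : ℝ} (h : δ ≤ δ') (hx : near δ x) : near δ' x := by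
  obtain ⟨n, hn⟩ := hx
  exact ⟨n, hn.trans h⟩

lemma near_sum {ι : Type*} (s : Finset ι) (δ : ℝ) (f : ι → ℝ) (h : ∀ i ∈ s, near δ (f i)) :
    near (s.card * δ) (∑ i ∈ s, f i) := by
  classical
  induction s using Finset.induction_on with
  | empty => exact ⟨0, by simp⟩
  | insert a s ha ih =>
    obtain ⟨n, hn⟩ := ih fun i hi => h i (Finset.mem_insert_of_mem hi)
    obtain ⟨m, hm⟩ := h a (Finset.mem_insert_self a s)
    refine ⟨m + n, ?_⟩
    rw [Finset.sum_insert ha, Finset.card_insert_of_notMem ha]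
    push_cast
    have e : f a + ∑ i ∈ s, f i - (m + n) = (f a - m) + (∑ i ∈ s, f i - n) := by ring
    rw [e]
    refine (abs_add_le _ _).trans ?_
    linarith

lemma isClosed_near (δ : ℝ) : IsClosed {x : ℝ | near δ x} := by
  have h : {x : ℝ | near δ x} = range (Int.cast : ℤ → ℝ) + Icc (-δ) δ := by
    ext x
    constructor
    · rintro ⟨n, hn⟩
      exact Set.mem_add.2 ⟨n, ⟨n, rfl⟩, x - n, abs_le.1 hn, by ring⟩
    · intro hx
      obtain ⟨_, ⟨n, rfl⟩, y, hy, rfl⟩ := Set.mem_add.1 hx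
      exact ⟨n, by rw [add_sub_cancel_left]; exact abs_le.2 hy⟩
  rw [h]
  exact (Int.isClosedEmbedding_coe_real.isClosed_range).add_right_of_isCompact isCompact_Icc

/-- Nested intervals on which finitely many lacunary affine functions are close to prescribed
values modulo `1`. -/
lemma nest (d : ℕ) (a b c A H : ℕ → ℝ) (good : ℕ → Prop) (δ : ℝ) (hδ : 0 < δ) (hδ1 : δ ≤ 1)
    (hA : ∀ k < d, 0 < A k) (haA : ∀ k < d, |a k| ≤ A k)
    (hH : ∀ k < d, H (k + 1) = δ / A k) (hdec : ∀ k < d, H (k + 1) ≤ H k)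
    (hgood : ∀ k < d, good k → 2 ≤ H k * |a k|) :
    ∀ n ≤ d, ∀ s : ℝ, ∃ s', s ≤ s' ∧ s' + H n ≤ s + H 0 ∧
      ∀ t, s' ≤ t → t ≤ s' + H n → ∀ k < n, good k → near δ (b k + a k * t - c k) := by
  intro n
  induction n with
  | zero => intro _ s; exact ⟨s, le_rfl, le_rfl, fun t _ _ k hk => absurd hk (Nat.not_lt_zero k)⟩
  | succ n ih =>
    intro hn s
    obtain ⟨s', h1, h2, h3⟩ := ih (by omega) s
    have hHn := hH n (by omega)
    have hAn := hA n (by omega)
    have hd := hdec n (by omega)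
    have hHpos : 0 < H (n + 1) := by rw [hHn]; positivity
    by_cases hg : good n
    · have h4 := hgood n (by omega) hg
      have ha0 : 0 < |a n| := by
        rcases (abs_nonneg (a n)).eq_or_lt with h | h
        · rw [← h] at h4; norm_num at h4
        · exact h
      have hane : a n ≠ 0 := abs_pos.1 ha0
      -- the target integer
      obtain ⟨t0, ht0, ht0', m, hm⟩ : ∃ t0, s' ≤ t0 ∧ t0 ≤ s' + 1 / |a n| ∧
          ∃ m : ℤ, b n + a n * t0 - c n = m := by
        rcases lt_or_gt_of_ne hane with hneg | hpos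
        · -- decreasing
          set w := b n + a n * s' - c n
          refine ⟨s' + (w - ⌊w⌋) / |a n|, ?_, ?_, ⌊w⌋, ?_⟩
          · have : 0 ≤ (w - ⌊w⌋) / |a n| := div_nonneg (Int.fract_nonneg w) ha0.le
            linarith
          · have : (w - ⌊w⌋) / |a n| ≤ 1 / |a n| :=
              div_le_div_of_nonneg_right (Int.fract_lt_one w).le ha0.le
            linarith
          · rw [abs_of_neg hneg]
            have : a n ≠ 0 := hane
            show b n + a n * (s' + (w - ⌊w⌋) / (-a n)) - c n = ⌊w⌋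
            have e : a n * ((w - ⌊w⌋) / (-a n)) = -(w - ⌊w⌋) := by field_simp
            have e2 : b n + a n * (s' + (w - ⌊w⌋) / (-a n)) - c n =
                w + a n * ((w - ⌊w⌋) / (-a n)) := by simp only [w]; ring
            rw [e2, e]; ring
        · set w := -(b n + a n * s' - c n)
          refine ⟨s' + (w - ⌊w⌋) / |a n|, ?_, ?_, -⌊w⌋, ?_⟩
          · have : 0 ≤ (w - ⌊w⌋) / |a n| := div_nonneg (Int.fract_nonneg w) ha0.le
            linarith
          · have : (w - ⌊w⌋) / |a n| ≤ 1 / |a n| :=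
              div_le_div_of_nonneg_right (Int.fract_lt_one w).le ha0.le
            linarith
          · rw [abs_of_pos hpos]
            have e : a n * ((w - ⌊w⌋) / a n) = (w - ⌊w⌋) := by field_simp
            have e2 : b n + a n * (s' + (w - ⌊w⌋) / a n) - c n =
                -w + a n * ((w - ⌊w⌋) / a n) := by simp only [w]; ring
            rw [e2, e]
            push_cast
            ring
      have h5 : H (n + 1) ≤ δ / |a n| := by
        rw [hHn]
        exact div_le_div_of_nonneg_left hδ.le ha0 (haA n (by omega))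
      have h6 : δ / |a n| ≤ 1 / |a n| := div_le_div_of_nonneg_right hδ1 ha0.le
      have h7 : 1 / |a n| + 1 / |a n| ≤ H n := by
        rw [← add_div, div_le_iff₀ ha0]
        linarith
      refine ⟨t0, h1.trans ht0, by linarith, ?_⟩
      intro t ht ht' k hk hgk
      rcases Nat.lt_succ_iff_lt_or_eq.1 hk with hk | rfl
      · exact h3 t (ht0.trans ht) (by linarith) k hk hgk
      · refine ⟨m, ?_⟩
        have e : b k + a k * t - c k - m = a k * (t - t0) := by rw [← hm]; ring
        rw [e, abs_mul]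
        have h8 : |t - t0| ≤ δ / |a k| := by
          rw [abs_of_nonneg (by linarith)]
          linarith
        calc |a k| * |t - t0| ≤ |a k| * (δ / |a k|) := mul_le_mul_of_nonneg_left h8 ha0.le
          _ = δ := by field_simp
    · refine ⟨s', h1, by linarith, ?_⟩
      intro t ht ht' k hk hgk
      rcases Nat.lt_succ_iff_lt_or_eq.1 hk with hk | rfl
      · exact h3 t ht (by linarith) k hk hgk
      · exact absurd hgk hg

/-- The integer form `N q ^ k (x + k y)`. -/
def form (N q k : ℕ) (z : ℝ × ℝ) : ℝ := N * q ^ k * (z.1 + k * z.2)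

lemma form_continuous (N q k : ℕ) : Continuous (form N q k) := by
  unfold form
  fun_prop

lemma form_line (N q k : ℕ) (z v : ℝ × ℝ) (t : ℝ) :
    form N q k (z + t • v) = form N q k z + (N * q ^ k * (v.1 + k * v.2)) * t := by
  simp only [form, Prod.fst_add, Prod.snd_add, Prod.smul_fst, Prod.smul_snd, smul_eq_mul]
  ring

lemma form_sum {ι : Type*} (N q k : ℕ) (s : Finset ι) (f : ι → ℝ × ℝ) :
    form N q k (∑ i ∈ s, f i) = ∑ i ∈ s, form N q k (f i) := by
  classical
  induction s using Finset.induction_on with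
  | empty => simp [form]
  | insert a s ha ih =>
    rw [Finset.sum_insert ha, Finset.sum_insert ha, ← ih]
    simp only [form, Prod.fst_add, Prod.snd_add]
    ring

/-- All forms but one are close to integers. -/
def S (d : ℕ) (δ : ℝ) (N q : ℕ) : Set (ℝ × ℝ) :=
  {z | ∃ i < d, ∀ k < d, k ≠ i → near δ (form N q k z)}

/-- Some form is close to an integer. -/
def C (d : ℕ) (δ : ℝ) (N q : ℕ) : Set (ℝ × ℝ) := {z | ∃ k < d, near δ (form N q k z)}

lemma isClosed_S (d : ℕ) (δ : ℝ) (N q : ℕ) : IsClosed (S d δ N q) := by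
  have h : S d δ N q = ⋃ i ∈ {i : ℕ | i < d}, ⋂ k : ℕ, ⋂ (_ : k < d), ⋂ (_ : k ≠ i),
      (form N q k) ⁻¹' {x | near δ x} := by
    ext z
    simp [S]
  rw [h]
  refine (Set.finite_lt_nat d).isClosed_biUnion fun i _ => ?_
  exact isClosed_iInter fun k => isClosed_iInter fun _ => isClosed_iInter fun _ =>
    (isClosed_near δ).preimage (form_continuous N q k)

lemma isClosed_C (d : ℕ) (δ : ℝ) (N q : ℕ) : IsClosed (C d δ N q) := by
  have h : C d δ N q = ⋃ i ∈ {i : ℕ | i < d}, (form N q i) ⁻¹' {x | near δ x} := by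
    ext z
    simp [C]
  rw [h]
  exact (Set.finite_lt_nat d).isClosed_biUnion fun i _ =>
    (isClosed_near δ).preimage (form_continuous N q i)

/-- A sum of fewer than `d` points of `S` lies in `C`. -/
lemma sum_mem_C {l d : ℕ} (hl : l < d) {δ : ℝ} {N q : ℕ} (hδ : 0 ≤ δ) (f : Fin l → ℝ × ℝ)
    (hf : ∀ i, f i ∈ S d δ N q) : ∑ i, f i ∈ C d (d * δ) N q := by
  choose e he hk using hf
  obtain ⟨k, hkd, hke⟩ : ∃ k < d, ∀ i, k ≠ e i := by
    by_contra hcon
    push Not at hcon
    choose g hg using fun k : Fin d => hcon k k.2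
    have hinj : Function.Injective g := by
      intro a b hab
      apply Fin.ext
      rw [hg a, hg b, hab]
    have := Fintype.card_le_of_injective g hinj
    simp at this
    omega
  refine ⟨k, hkd, ?_⟩
  rw [form_sum]
  have h1 := near_sum Finset.univ δ (fun i => form N q k (f i)) fun i _ => hk i k hkd (hke i)
  refine near_mono ?_ h1
  have : (Finset.univ : Finset (Fin l)).card = l := by simp
  rw [this]
  exact mul_le_mul_of_nonneg_right (by exact_mod_cast hl.le) hδ

lemma int_mem_S {d : ℕ} (hd : 0 < d) {δ : ℝ} (hδ : 0 ≤ δ) (N q : ℕ) (m n : ℤ) :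
    ((m : ℝ), (n : ℝ)) ∈ S d δ N q := by
  refine ⟨0, hd, fun k _ _ => ?_⟩
  have : form N q k ((m : ℝ), (n : ℝ)) = ((N * q ^ k * (m + k * n) : ℤ) : ℝ) := by
    simp only [form]; push_cast; ring
  rw [this]
  exact near_int δ hδ _

/-- At most one of the slopes is small. -/
lemma slopes {d : ℕ} (hd : 0 < d) (v : ℝ × ℝ) (hv : |v.1| = 1 ∨ |v.2| = 1) :
    ∃ i < d, ∀ k < d, k ≠ i → 1 / (2 * (d : ℝ)) ≤ |v.1 + k * v.2| := by
  have hd0 : (0:ℝ) < d := by exact_mod_cast hd
  have hd1 : (1:ℝ) ≤ d := by exact_mod_cast hd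
  by_cases hall : ∀ k < d, 1 / (2 * (d : ℝ)) ≤ |v.1 + k * v.2|
  · exact ⟨0, hd, fun k hk _ => hall k hk⟩
  · push Not at hall
    obtain ⟨i, hi, hi2⟩ := hall
    refine ⟨i, hi, fun k hk hki => ?_⟩
    by_contra hcon
    push Not at hcon
    have h1 : |((k : ℝ) - i) * v.2| < 1 / d := by
      have e : ((k : ℝ) - i) * v.2 = (v.1 + k * v.2) - (v.1 + i * v.2) := by ring
      rw [e]
      refine (abs_sub _ _).trans_lt ?_
      have e2 : (1:ℝ) / d = 1 / (2 * d) + 1 / (2 * d) := by field_simp; norm_num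
      rw [e2]
      linarith
    have h2 : (1:ℝ) ≤ |(k : ℝ) - i| := by
      have : (1:ℤ) ≤ |(k : ℤ) - i| := Int.one_le_abs (sub_ne_zero.2 (by exact_mod_cast hki))
      exact_mod_cast this
    have h3 : |v.2| < 1 / d := by
      rw [abs_mul] at h1
      have := mul_le_mul_of_nonneg_right h2 (abs_nonneg v.2)
      linarith
    have h4 : |v.2| < 1 := h3.trans_le (by rw [div_le_one hd0]; exact hd1)
    have h5 : |v.1| < 1 := by
      have e : v.1 = (v.1 + k * v.2) - k * v.2 := by ring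
      rw [e]
      refine (abs_sub _ _).trans_lt ?_
      rw [abs_mul, Nat.abs_cast]
      have hk1 : (k : ℝ) ≤ d - 1 := by
        have : k + 1 ≤ d := hk
        have : ((k + 1 : ℕ) : ℝ) ≤ d := by exact_mod_cast this
        push_cast at this
        linarith
      have h6 : (k : ℝ) * |v.2| ≤ (d - 1) * (1 / d) :=
        mul_le_mul hk1 h3.le (abs_nonneg _) (by linarith)
      have h7 : ((d : ℝ) - 1) * (1 / d) + 1 / (2 * d) < 1 := by
        have : ((d : ℝ) - 1) * (1 / d) + 1 / (2 * d) = 1 - 1 / (2 * d) := by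
          field_simp
          ring
        rw [this]
        have : 0 < 1 / (2 * (d:ℝ)) := by positivity
        linarith
      linarith
    rcases hv with h | h <;> linarith

section stage

variable {d N q : ℕ} {δ ρ : ℝ}

lemma seq_props (hd : 0 < d) (hδ : 0 < δ) (hδ1 : δ ≤ 1) (hρ : 0 < ρ) (hN : 4 * d / ρ ≤ N)
    (hq : 4 * d ^ 2 / δ ≤ q) (a : ℕ → ℝ) (good : ℕ → Prop)
    (ha : ∀ k < d, |a k| ≤ N * q ^ k * d)
    (hg : ∀ k < d, good k → N * q ^ k * (1 / (2 * (d : ℝ))) ≤ |a k|) (b c : ℕ → ℝ) (s : ℝ) :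
    ∃ s', s ≤ s' ∧ s' + δ / (N * q ^ (d - 1) * d) ≤ s + ρ ∧
      ∀ t, s' ≤ t → t ≤ s' + δ / (N * q ^ (d - 1) * d) →
        ∀ k < d, good k → near δ (b k + a k * t - c k) := by
  have hd0 : (0:ℝ) < d := by exact_mod_cast hd
  have hd1 : (1:ℝ) ≤ d := by exact_mod_cast hd
  have hN0 : (0:ℝ) < N := lt_of_lt_of_le (by positivity) hN
  have hq0 : (0:ℝ) < q := lt_of_lt_of_le (by positivity) hq
  have hq4 : 4 * (d:ℝ) ^ 2 ≤ δ * q := by
    rw [div_le_iff₀ hδ] at hq
    linarith
  have hN4 : 4 * (d:ℝ) ≤ ρ * N := by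
    rw [div_le_iff₀ hρ] at hN
    linarith
  have hd2 : (1:ℝ) ≤ (d:ℝ) ^ 2 := one_le_pow₀ hd1
  have hq1 : (1:ℝ) ≤ q := by nlinarith
  set H : ℕ → ℝ := fun k => if k = 0 then ρ else δ / (N * q ^ (k - 1) * d) with hHdef
  have key := nest d a b c (fun k => N * q ^ k * d) H good δ hδ hδ1
    (fun k _ => by positivity) ha (fun k _ => by simp [hHdef]) ?_ ?_ d le_rfl s
  · obtain ⟨s', h1, h2, h3⟩ := key
    have e1 : H d = δ / (N * q ^ (d - 1) * d) := by simp [hHdef, hd.ne']
    have e2 : H 0 = ρ := by simp [hHdef]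
    rw [e1, e2] at h2
    rw [e1] at h3
    exact ⟨s', h1, h2, h3⟩
  · intro k _
    simp only [hHdef, Nat.add_eq_zero_iff, one_ne_zero, and_false, if_false, Nat.add_sub_cancel]
    rcases Nat.eq_zero_or_pos k with rfl | hk
    · simp only [if_true, pow_zero, mul_one]
      rw [div_le_iff₀ (by positivity)]
      nlinarith
    · rw [if_neg hk.ne']
      apply div_le_div_of_nonneg_left hδ.le (by positivity)
      have : (q:ℝ) ^ (k - 1) ≤ q ^ k := pow_le_pow_right₀ hq1 (Nat.sub_le k 1)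
      have := mul_le_mul_of_nonneg_left this hN0.le
      exact mul_le_mul_of_nonneg_right this hd0.le
  · intro k hk hgk
    have h4 := hg k hk hgk
    simp only [hHdef]
    rcases Nat.eq_zero_or_pos k with rfl | hk0
    · rw [if_pos rfl]
      simp only [pow_zero, mul_one] at h4
      have h5 : ρ * (N * (1 / (2 * (d:ℝ)))) ≤ ρ * |a 0| := mul_le_mul_of_nonneg_left h4 hρ.le
      have h6 : 2 ≤ ρ * (N * (1 / (2 * (d:ℝ)))) := by
        have : ρ * (N * (1 / (2 * (d:ℝ)))) = (ρ * N) / (2 * d) := by field_simp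
        rw [this, le_div_iff₀ (by positivity)]
        linarith
      linarith
    · rw [if_neg hk0.ne']
      have hpos : 0 < δ / (N * q ^ (k - 1) * d) := by positivity
      have h5 := mul_le_mul_of_nonneg_left h4 hpos.le
      refine le_trans ?_ h5
      obtain ⟨m, rfl⟩ := Nat.exists_eq_add_of_lt hk0
      have e : δ / (N * q ^ (0 + m + 1 - 1) * d) * (N * q ^ (0 + m + 1) * (1 / (2 * (d:ℝ)))) =
          (δ * q) / (2 * d ^ 2) := by
        simp only [zero_add, Nat.add_sub_cancel]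
        rw [pow_succ]
        field_simp
      rw [e, le_div_iff₀ (by positivity)]
      linarith

/-- The blocking property. -/
lemma block (hd : 0 < d) (hδ : 0 < δ) (hδ1 : δ ≤ 1) (hρ : 0 < ρ) (hN : 4 * d / ρ ≤ N)
    (hq : 4 * d ^ 2 / δ ≤ q) (z v : ℝ × ℝ) (hv1 : |v.1| ≤ 1) (hv2 : |v.2| ≤ 1)
    (hv : |v.1| = 1 ∨ |v.2| = 1) (s : ℝ) :
    ∃ s', s ≤ s' ∧ s' + δ / (N * q ^ (d - 1) * d) ≤ s + ρ ∧
      ∀ t, s' ≤ t → t ≤ s' + δ / (N * q ^ (d - 1) * d) → z + t • v ∈ S d δ N q := by
  obtain ⟨i, hi, hik⟩ := slopes hd v hv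
  have hN0 : (0:ℝ) ≤ N := Nat.cast_nonneg N
  have hq0 : (0:ℝ) ≤ q := Nat.cast_nonneg q
  have ha : ∀ k < d, |(N : ℝ) * q ^ k * (v.1 + k * v.2)| ≤ N * q ^ k * d := by
    intro k hk
    have hk1 : (k : ℝ) + 1 ≤ d := by exact_mod_cast hk
    rw [abs_mul, abs_of_nonneg (by positivity : (0:ℝ) ≤ N * q ^ k)]
    apply mul_le_mul_of_nonneg_left _ (by positivity)
    refine (abs_add_le _ _).trans ?_
    rw [abs_mul, Nat.abs_cast]
    have : (k : ℝ) * |v.2| ≤ k * 1 := mul_le_mul_of_nonneg_left hv2 (Nat.cast_nonneg k)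
    linarith
  have hg : ∀ k < d, k ≠ i → N * q ^ k * (1 / (2 * (d : ℝ))) ≤
      |(N : ℝ) * q ^ k * (v.1 + k * v.2)| := by
    intro k hk hki
    rw [abs_mul, abs_of_nonneg (by positivity : (0:ℝ) ≤ N * q ^ k)]
    exact mul_le_mul_of_nonneg_left (hik k hk hki) (by positivity)
  obtain ⟨s', h1, h2, h3⟩ := seq_props hd hδ hδ1 hρ hN hq
    (fun k => N * q ^ k * (v.1 + k * v.2)) (fun k => k ≠ i) ha hg
    (fun k => form N q k z) (fun _ => 0) s
  refine ⟨s', h1, h2, fun t ht ht' => ⟨i, hi, fun k hk hki => ?_⟩⟩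
  have := h3 t ht ht' k hk hki
  rw [form_line]
  simpa using this

/-- The missing property. -/
lemma miss (hd : 0 < d) (hδ : 0 < δ) (hρ : 0 < ρ) (hN : 4 * d / ρ ≤ N)
    (hq : 4 * d ^ 2 / δ ≤ q) (hsm : (d + 1) * δ < 1 / 2) (z : ℝ × ℝ) :
    ∃ t, 0 ≤ t ∧ t ≤ ρ ∧ z + t • ((1, 0) : ℝ × ℝ) ∉ C d (d * δ) N q := by
  have hd0 : (0:ℝ) < d := by exact_mod_cast hd
  have hd1 : (1:ℝ) ≤ d := by exact_mod_cast hd
  have hN0 : (0:ℝ) < N := lt_of_lt_of_le (by positivity) hN
  have hq0 : (0:ℝ) < q := lt_of_lt_of_le (by positivity) hq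
  have hδ1 : δ ≤ 1 := by nlinarith
  have ha : ∀ k < d, |(N : ℝ) * q ^ k| ≤ N * q ^ k * d := by
    intro k _
    rw [abs_of_nonneg (by positivity)]
    exact le_mul_of_one_le_right (by positivity) hd1
  have hg : ∀ k < d, True → N * q ^ k * (1 / (2 * (d : ℝ))) ≤ |(N : ℝ) * q ^ k| := by
    intro k _ _
    rw [abs_of_nonneg (by positivity)]
    apply mul_le_of_le_one_right (by positivity)
    rw [div_le_one (by positivity)]
    linarith
  obtain ⟨s', h1, h2, h3⟩ := seq_props hd hδ hδ1 hρ hN hq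
    (fun k => N * q ^ k) (fun _ => True) ha hg
    (fun k => form N q k z) (fun _ => 1 / 2) 0
  have hpos : 0 < δ / (N * q ^ (d - 1) * d) := by positivity
  refine ⟨s', h1, by linarith, ?_⟩
  rintro ⟨k, hk, n, hn⟩
  obtain ⟨m, hm⟩ := h3 s' le_rfl (by linarith) k hk trivial
  rw [form_line] at hn
  simp only [mul_zero, add_zero, mul_one] at hn
  have e : ((m : ℝ) - n) + 1 / 2 = (form N q k z + N * q ^ k * s' - n) -
      (form N q k z + N * q ^ k * s' - 1 / 2 - m) := by ring
  have h4 : |((m : ℝ) - n) + 1 / 2| < 1 / 2 := by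
    rw [e]
    refine (abs_sub _ _).trans_lt ?_
    linarith
  rw [abs_lt] at h4
  have h5 : ((m - n : ℤ) : ℝ) < 0 := by push_cast; linarith [h4.2]
  have h6 : (-1 : ℝ) < ((m - n : ℤ) : ℝ) := by push_cast; linarith [h4.1]
  have h5' : m - n < 0 := by exact_mod_cast h5
  have h6' : -1 < m - n := by exact_mod_cast h6
  omega

end stage

end Pool.Agent.R248.LineSum
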