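import Pool.Agent.R248.LineSum.Basic

/-!
A compact subset of the unit square which meets every line meeting the square and all of whose
iterated sumsets are nowhere dense.
-/

set_option autoImplicit false

namespace Pool.Agent.R248.LineSum

open Set Filter Topology

/-- The tolerance at stage `j`. -/
noncomputable def del (j : ℕ) : ℝ := 1 / (4 * (j + 2))

lemma del_pos (j : ℕ) : 0 < del j := by unfold del; positivity

lemma del_le (j : ℕ) : del j ≤ 1 := by
  unfold del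
  rw [div_le_one (by positivity)]
  have : (0:ℝ) ≤ j := Nat.cast_nonneg j
  linarith

/-- The ratio at stage `j`. -/
def qq (j : ℕ) : ℕ := 16 * (j + 1) ^ 2 * (j + 2)

/-- The frequency used with the scale `x` at stage `j`. -/
noncomputable def NN (j : ℕ) (x : ℝ) : ℕ := ⌈4 * ((j + 1 : ℕ) : ℝ) / x⌉₊

/-- The scales. -/
noncomputable def rho : ℕ → ℝ
  | 0 => 1
  | (j + 1) => del j / (NN j (rho j) * (qq j : ℝ) ^ (j + 1 - 1) * ((j + 1 : ℕ) : ℝ))

lemma rho_succ (j : ℕ) : rho (j + 1) =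
    del j / (NN j (rho j) * (qq j : ℝ) ^ (j + 1 - 1) * ((j + 1 : ℕ) : ℝ)) := rfl

lemma qq_pos (j : ℕ) : 0 < qq j := by unfold qq; positivity

lemma rho_pos : ∀ j, 0 < rho j
  | 0 => one_pos
  | (j + 1) => by
    have h := rho_pos j
    rw [rho_succ]
    have h1 : 0 < NN j (rho j) := Nat.ceil_pos.2 (by positivity)
    have h2 := qq_pos j
    have h3 := del_pos j
    positivity

lemma rho_half (j : ℕ) : rho (j + 1) ≤ rho j / 2 := by
  have h := rho_pos j
  rw [rho_succ]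
  have h1 : 4 * ((j + 1 : ℕ) : ℝ) / rho j ≤ NN j (rho j) := Nat.le_ceil _
  have h1' : 0 < 4 * ((j + 1 : ℕ) : ℝ) / rho j := by positivity
  have h2 : (1:ℝ) ≤ qq j := by exact_mod_cast qq_pos j
  have h3 : (1:ℝ) ≤ (qq j : ℝ) ^ (j + 1 - 1) := one_le_pow₀ h2
  have h4 : (1:ℝ) ≤ ((j + 1 : ℕ) : ℝ) := by exact_mod_cast Nat.succ_pos j
  have h5 : 2 / rho j ≤ NN j (rho j) * (qq j : ℝ) ^ (j + 1 - 1) * ((j + 1 : ℕ) : ℝ) := by
    calc 2 / rho j ≤ 4 * ((j + 1 : ℕ) : ℝ) / rho j := by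
          apply div_le_div_of_nonneg_right _ h.le
          linarith
      _ ≤ NN j (rho j) := h1
      _ = NN j (rho j) * 1 * 1 := by ring
      _ ≤ _ := by
          apply mul_le_mul _ h4 zero_le_one (by positivity)
          exact mul_le_mul_of_nonneg_left h3 (by positivity)
  rw [div_le_iff₀ (by linarith [show 0 < 2 / rho j by positivity])]
  have h6 := mul_le_mul_of_nonneg_left h5 (by positivity : 0 ≤ rho j / 2)
  have h7 : rho j / 2 * (2 / rho j) = 1 := by field_simp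
  linarith [del_le j]

lemma rho_le_pow (j : ℕ) : rho j ≤ (1 / 2) ^ j := by
  induction j with
  | zero => simp [rho]
  | succ j ih =>
    rw [pow_succ]
    linarith [rho_half j]

lemma rho_tendsto : Tendsto rho atTop (𝓝 0) :=
  squeeze_zero (fun j => (rho_pos j).le) rho_le_pow
    (tendsto_pow_atTop_nhds_zero_of_lt_one (by norm_num) (by norm_num))

/-- The set of stage `j`. -/
noncomputable def T (j : ℕ) : Set (ℝ × ℝ) := S (j + 1) (del j) (NN j (rho j)) (qq j)

/-- The superset of the sums at stage `j`. -/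
noncomputable def U (j : ℕ) : Set (ℝ × ℝ) :=
  C (j + 1) (((j + 1 : ℕ) : ℝ) * del j) (NN j (rho j)) (qq j)

lemma isClosed_T (j : ℕ) : IsClosed (T j) := isClosed_S _ _ _ _

lemma isClosed_U (j : ℕ) : IsClosed (U j) := isClosed_C _ _ _ _

lemma qq_ge (j : ℕ) : 4 * ((j + 1 : ℕ) : ℝ) ^ 2 / del j ≤ qq j := by
  unfold del qq
  rw [div_div_eq_mul_div, div_one]
  push_cast
  apply le_of_eq
  ring

lemma sum_mem_U {l j : ℕ} (hl : l ≤ j) (f : Fin l → ℝ × ℝ) (hf : ∀ i, f i ∈ T j) :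
    ∑ i, f i ∈ U j :=
  sum_mem_C (Nat.lt_succ_of_le hl) (del_pos j).le f hf

lemma block_T (j : ℕ) (z v : ℝ × ℝ) (hv1 : |v.1| ≤ 1) (hv2 : |v.2| ≤ 1)
    (hv : |v.1| = 1 ∨ |v.2| = 1) (s : ℝ) :
    ∃ s', s ≤ s' ∧ s' + rho (j + 1) ≤ s + rho j ∧
      ∀ t, s' ≤ t → t ≤ s' + rho (j + 1) → z + t • v ∈ T j := by
  rw [rho_succ]
  exact block (Nat.succ_pos j) (del_pos j) (del_le j) (rho_pos j) (Nat.le_ceil _) (qq_ge j) z v
    hv1 hv2 hv s

lemma miss_U (j : ℕ) (z : ℝ × ℝ) : ∃ t, 0 ≤ t ∧ t ≤ rho j ∧ z + t • ((1, 0) : ℝ × ℝ) ∉ U j := by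
  refine miss (Nat.succ_pos j) (del_pos j) (rho_pos j) (Nat.le_ceil _) (qq_ge j) ?_ z
  unfold del
  push_cast
  rw [mul_one_div, div_lt_iff₀ (by positivity)]
  have : (0:ℝ) ≤ j := Nat.cast_nonneg j
  linarith

/-- The corners of the unit square. -/
noncomputable def corners : Finset (ℝ × ℝ) := {((0:ℝ), (0:ℝ)), (0, 1), (1, 0), (1, 1)}

/-- The compact set. -/
noncomputable def K : Set (ℝ × ℝ) :=
  (Icc 0 1 ×ˢ Icc 0 1) ∩ ⋂ j, (T j ∪ ⋃ c ∈ corners, Metric.closedBall c (2 * rho j))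

lemma isCompact_K : IsCompact K := by
  unfold K
  apply (isCompact_Icc.prod isCompact_Icc).inter_right
  refine isClosed_iInter fun j => (isClosed_T j).union ?_
  exact corners.finite_toSet.isClosed_biUnion fun _ _ => Metric.isClosed_closedBall

lemma corner_mem_T {c : ℝ × ℝ} (hc : c ∈ corners) (j : ℕ) : c ∈ T j := by
  simp only [corners, Finset.mem_insert, Finset.mem_singleton] at hc
  rcases hc with rfl | rfl | rfl | rfl
  · simpa [T] using int_mem_S (Nat.succ_pos j) (del_pos j).le (NN j (rho j)) (qq j) 0 0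
  · simpa [T] using int_mem_S (Nat.succ_pos j) (del_pos j).le (NN j (rho j)) (qq j) 0 1
  · simpa [T] using int_mem_S (Nat.succ_pos j) (del_pos j).le (NN j (rho j)) (qq j) 1 0
  · simpa [T] using int_mem_S (Nat.succ_pos j) (del_pos j).le (NN j (rho j)) (qq j) 1 1

/-- Every point of `K` is in all but finitely many of the sets `T j`. -/
lemma eventually_T {z : ℝ × ℝ} (hz : z ∈ K) : ∃ m, ∀ j ≥ m, z ∈ T j := by
  by_cases hc : z ∈ corners
  · exact ⟨0, fun j _ => corner_mem_T hc j⟩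
  · have h1 : ∀ c ∈ corners, ∃ m, ∀ j ≥ m, z ∉ Metric.closedBall c (2 * rho j) := by
      intro c hcc
      have hne : z ≠ c := fun h => hc (h ▸ hcc)
      have hd : 0 < dist z c := dist_pos.2 hne
      have h2 : ∀ᶠ j in atTop, rho j < dist z c / 2 :=
        rho_tendsto.eventually (gt_mem_nhds (by positivity))
      obtain ⟨m, hm⟩ := eventually_atTop.1 h2
      refine ⟨m, fun j hj h3 => ?_⟩
      have := hm j hj
      rw [Metric.mem_closedBall] at h3
      linarith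
    choose! m hm using h1
    refine ⟨corners.sup m, fun j hj => ?_⟩
    have h2 := mem_iInter.1 hz.2 j
    rcases h2 with h2 | h2
    · exact h2
    · simp only [mem_iUnion] at h2
      obtain ⟨c, hcc, h3⟩ := h2
      exact absurd h3 (hm c hcc j ((Finset.le_sup hcc).trans hj))

/-- Nested intervals. -/
lemma chain (z v : ℝ × ℝ) (hv1 : |v.1| ≤ 1) (hv2 : |v.2| ≤ 1) (hv : |v.1| = 1 ∨ |v.2| = 1)
    (m : ℕ) : ∃ t, 0 ≤ t ∧ t ≤ rho m ∧ ∀ j ≥ m, z + t • v ∈ T j := by
  choose F hF1 hF2 hF3 using fun j s => block_T j z v hv1 hv2 hv s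
  let s : ℕ → ℝ := fun n => Nat.rec 0 (fun k x => F (m + k) x) n
  have hs0 : s 0 = 0 := rfl
  have hs : ∀ n, s (n + 1) = F (m + n) (s n) := fun n => rfl
  have hmono : Monotone s := monotone_nat_of_le_succ fun n => by rw [hs]; exact hF1 _ _
  have hanti : Antitone fun n => s n + rho (m + n) := antitone_nat_of_succ_le fun n => by
    rw [hs]; exact hF2 _ _
  have hbd : ∀ n k, s n ≤ s k + rho (m + k) := by
    intro n k
    rcases le_total n k with h | h
    · linarith [hmono h, (rho_pos (m + k)).le]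
    · have := hanti h
      simp only at this
      linarith [(rho_pos (m + n)).le]
  have hbdd : BddAbove (range s) := ⟨s 0 + rho (m + 0), by rintro _ ⟨n, rfl⟩; exact hbd n 0⟩
  refine ⟨⨆ n, s n, ?_, ?_, ?_⟩
  · rw [← hs0]; exact le_ciSup hbdd 0
  · apply ciSup_le
    intro n
    have := hbd n 0
    rw [hs0] at this
    simpa using this
  · intro j hj
    obtain ⟨n, rfl⟩ := Nat.exists_eq_add_of_le hj
    apply hF3 (m + n) (s n)
    · rw [← hs]; exact le_ciSup hbdd (n + 1)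
    · rw [← hs]
      exact ciSup_le fun k => hbd k (n + 1)

/-- Room in the square. -/
lemma room (p v : ℝ × ℝ) (hp : p ∈ (Icc 0 1 ×ˢ Icc 0 1 : Set (ℝ × ℝ))) (hv1 : |v.1| ≤ 1)
    (hv2 : |v.2| ≤ 1) :
    ∃ (r : ℝ) (c : ℝ × ℝ) (σ : ℝ), 0 ≤ r ∧ c ∈ corners ∧ |σ| = 1 ∧ (r = 0 → p = c) ∧
      ∀ t, 0 ≤ t → t ≤ r → p + t • (σ • v) ∈ (Icc 0 1 ×ˢ Icc 0 1 : Set (ℝ × ℝ)) ∧
        dist (p + t • (σ • v)) c ≤ 2 * r := by
  obtain ⟨⟨hx0, hx1⟩, hy0, hy1⟩ := hp
  obtain ⟨x, y⟩ := p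
  obtain ⟨v, w⟩ := v
  simp only at hx0 hx1 hy0 hy1 hv1 hv2
  -- one-dimensional facts
  have one : ∀ x : ℝ, 0 ≤ x → x ≤ 1 → ∃ (c u : ℝ), (c = 0 ∨ c = 1) ∧ |x - c| = u ∧ u ≤ x ∧
      u ≤ 1 - x ∧ u ≤ 1 / 2 := by
    intro x h0 h1
    rcases le_total x (1 / 2) with h | h
    · exact ⟨0, x, Or.inl rfl, by rw [sub_zero, abs_of_nonneg h0], le_rfl, by linarith, h⟩
    · exact ⟨1, 1 - x, Or.inr rfl, by rw [abs_sub_comm, abs_of_nonneg (by linarith)], by linarith,
        le_rfl, by linarith⟩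
  -- moving inwards
  have inward : ∀ x w : ℝ, 0 ≤ x → x ≤ 1 → |w| ≤ 1 → ∃ σ : ℝ, |σ| = 1 ∧ ∀ t, 0 ≤ t → t ≤ 1 / 2 →
      0 ≤ x + t * (σ * w) ∧ x + t * (σ * w) ≤ 1 := by
    intro x w h0 h1 hw
    obtain ⟨σ, hσ, hσw⟩ : ∃ σ : ℝ, |σ| = 1 ∧ σ * w = |w| := by
      rcases le_total 0 w with h | h
      · exact ⟨1, by simp, by rw [one_mul, abs_of_nonneg h]⟩
      · exact ⟨-1, by simp, by rw [abs_of_nonpos h]; ring⟩
    rcases le_total x (1 / 2) with h | h
    · refine ⟨σ, hσ, fun t ht ht' => ?_⟩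
      rw [hσw]
      have h2 : 0 ≤ t * |w| := by positivity
      have h3 : t * |w| ≤ t * 1 := mul_le_mul_of_nonneg_left hw ht
      constructor <;> linarith
    · refine ⟨-σ, by rw [abs_neg]; exact hσ, fun t ht ht' => ?_⟩
      rw [neg_mul, hσw]
      have h2 : 0 ≤ t * |w| := by positivity
      have h3 : t * |w| ≤ t * 1 := mul_le_mul_of_nonneg_left hw ht
      constructor <;> linarith
  have small : ∀ t σ w : ℝ, 0 ≤ t → |σ| = 1 → |w| ≤ 1 → |t * (σ * w)| ≤ t := by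
    intro t σ w ht hσ hw
    rw [abs_mul, abs_mul, hσ, one_mul, abs_of_nonneg ht]
    exact mul_le_of_le_one_right ht hw
  obtain ⟨c1, u1, hc1, hu1, hu1x, hu1y, hu1h⟩ := one x hx0 hx1
  obtain ⟨c2, u2, hc2, hu2, hu2x, hu2y, hu2h⟩ := one y hy0 hy1
  have hcor : (c1, c2) ∈ corners := by
    simp only [corners, Finset.mem_insert, Finset.mem_singleton, Prod.mk.injEq]
    rcases hc1 with rfl | rfl <;> rcases hc2 with rfl | rfl <;> simp
  have hu10 : 0 ≤ u1 := hu1 ▸ abs_nonneg _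
  have hu20 : 0 ≤ u2 := hu2 ▸ abs_nonneg _
  obtain ⟨σ, hσ, hin⟩ : ∃ σ : ℝ, |σ| = 1 ∧ ∀ t, 0 ≤ t → t ≤ max u1 u2 →
      (0 ≤ x + t * (σ * v) ∧ x + t * (σ * v) ≤ 1) ∧ (0 ≤ y + t * (σ * w) ∧
        y + t * (σ * w) ≤ 1) := by
    rcases le_total u1 u2 with h | h
    · obtain ⟨σ, hσ, h2⟩ := inward x v hx0 hx1 hv1
      refine ⟨σ, hσ, fun t ht ht' => ?_⟩
      rw [max_eq_right h] at ht'
      refine ⟨h2 t ht (by linarith), ?_⟩
      have := abs_le.1 (small t σ w ht hσ hv2)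
      constructor <;> linarith
    · obtain ⟨σ, hσ, h2⟩ := inward y w hy0 hy1 hv2
      refine ⟨σ, hσ, fun t ht ht' => ?_⟩
      rw [max_eq_left h] at ht'
      refine ⟨?_, h2 t ht (by linarith)⟩
      have := abs_le.1 (small t σ v ht hσ hv1)
      constructor <;> linarith
  refine ⟨max u1 u2, (c1, c2), σ, le_max_of_le_left hu10, hcor, hσ, ?_, ?_⟩
  · intro h
    have h1 : u1 = 0 := le_antisymm (h ▸ le_max_left _ _) hu10
    have h2 : u2 = 0 := le_antisymm (h ▸ le_max_right _ _) hu20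
    rw [h1, abs_eq_zero, sub_eq_zero] at hu1
    rw [h2, abs_eq_zero, sub_eq_zero] at hu2
    rw [hu1, hu2]
  · intro t ht ht'
    obtain ⟨⟨h1, h2⟩, h3, h4⟩ := hin t ht ht'
    refine ⟨⟨⟨by simpa using h1, by simpa using h2⟩, by simpa using h3, by simpa using h4⟩, ?_⟩
    rw [Prod.dist_eq]
    apply max_le
    · have e : ((x, y) + t • (σ • (v, w)) : ℝ × ℝ).1 - (c1, c2).1 = (x - c1) + t * (σ * v) := by
        simp only [Prod.fst_add, Prod.smul_fst, smul_eq_mul]
        ring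
      rw [Real.dist_eq, e]
      refine (abs_add_le _ _).trans ?_
      have := small t σ v ht hσ hv1
      have := le_max_left u1 u2
      rw [hu1]
      linarith
    · have e : ((x, y) + t • (σ • (v, w)) : ℝ × ℝ).2 - (c1, c2).2 = (y - c2) + t * (σ * w) := by
        simp only [Prod.snd_add, Prod.smul_snd, smul_eq_mul]
        ring
      rw [Real.dist_eq, e]
      refine (abs_add_le _ _).trans ?_
      have := small t σ w ht hσ hv2
      have := le_max_right u1 u2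
      rw [hu2]
      linarith

/-- `K` meets every line through a point of the square. -/
lemma meets (p v : ℝ × ℝ) (hp : p ∈ (Icc 0 1 ×ˢ Icc 0 1 : Set (ℝ × ℝ))) (hv : v ≠ 0) :
    ∃ t : ℝ, p + t • v ∈ K := by
  -- normalise
  have hM : 0 < max |v.1| |v.2| := by
    rcases eq_or_ne v.1 0 with h | h
    · apply lt_max_of_lt_right
      apply abs_pos.2
      intro h'
      exact hv (Prod.ext h h')
    · exact lt_max_of_lt_left (abs_pos.2 h)
  set M := max |v.1| |v.2| with hMdef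
  set w : ℝ × ℝ := M⁻¹ • v with hw
  have hw1 : |w.1| ≤ 1 := by
    rw [hw, Prod.smul_fst, smul_eq_mul, abs_mul, abs_inv, abs_of_pos hM, inv_mul_le_iff₀ hM,
      mul_one]
    exact le_max_left _ _
  have hw2 : |w.2| ≤ 1 := by
    rw [hw, Prod.smul_snd, smul_eq_mul, abs_mul, abs_inv, abs_of_pos hM, inv_mul_le_iff₀ hM,
      mul_one]
    exact le_max_right _ _
  have hw3 : |w.1| = 1 ∨ |w.2| = 1 := by
    rcases max_choice |v.1| |v.2| with h | h
    · left
      rw [hw, Prod.smul_fst, smul_eq_mul, abs_mul, abs_inv, abs_of_pos hM, hMdef, h]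
      apply inv_mul_cancel₀
      rw [← h]; exact hM.ne'
    · right
      rw [hw, Prod.smul_snd, smul_eq_mul, abs_mul, abs_inv, abs_of_pos hM, hMdef, h]
      apply inv_mul_cancel₀
      rw [← h]; exact hM.ne'
  obtain ⟨r, c, σ, hr, hc, hσ, hrc, hroom⟩ := room p w hp hw1 hw2
  rcases hr.eq_or_lt with h0 | hr0
  · refine ⟨0, ?_⟩
    rw [zero_smul, add_zero]
    refine ⟨hp, mem_iInter.2 fun j => Or.inl ?_⟩
    rw [hrc h0.symm]
    exact corner_mem_T hc j
  · -- the first scale below `r`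
    have hex : ∃ m, rho m ≤ r := by
      obtain ⟨m, hm⟩ := (rho_tendsto.eventually (gt_mem_nhds hr0)).exists
      exact ⟨m, hm.le⟩
    classical
    set m := Nat.find hex
    have hm : rho m ≤ r := Nat.find_spec hex
    have hmin : ∀ j < m, r < rho j := fun j hj => not_le.1 (Nat.find_min hex hj)
    have hσ1 : |(σ • w).1| ≤ 1 := by
      rw [Prod.smul_fst, smul_eq_mul, abs_mul, hσ, one_mul]; exact hw1
    have hσ2 : |(σ • w).2| ≤ 1 := by
      rw [Prod.smul_snd, smul_eq_mul, abs_mul, hσ, one_mul]; exact hw2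
    have hσ3 : |(σ • w).1| = 1 ∨ |(σ • w).2| = 1 := by
      rw [Prod.smul_fst, Prod.smul_snd, smul_eq_mul, smul_eq_mul, abs_mul, abs_mul, hσ, one_mul,
        one_mul]
      exact hw3
    obtain ⟨t, ht0, ht1, ht2⟩ := chain p (σ • w) hσ1 hσ2 hσ3 m
    obtain ⟨h1, h2⟩ := hroom t ht0 (ht1.trans hm)
    refine ⟨t * (σ * M⁻¹), ?_⟩
    have e : p + (t * (σ * M⁻¹)) • v = p + t • (σ • w) := by
      rw [hw, smul_smul, smul_smul, mul_assoc]
    rw [e]
    refine ⟨h1, mem_iInter.2 fun j => ?_⟩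
    rcases lt_or_ge j m with hj | hj
    · right
      simp only [mem_iUnion]
      refine ⟨c, hc, ?_⟩
      rw [Metric.mem_closedBall]
      exact h2.trans (by linarith [hmin j hj])
    · left
      exact ht2 j hj

/-- The `l`-fold sumset. -/
def sumset (l : ℕ) (K : Set (ℝ × ℝ)) : Set (ℝ × ℝ) :=
  {z | ∃ f : Fin l → ℝ × ℝ, (∀ i, f i ∈ K) ∧ z = ∑ i, f i}

lemma isCompact_sumset (l : ℕ) {K : Set (ℝ × ℝ)} (hK : IsCompact K) : IsCompact (sumset l K) := by
  have h : sumset l K = (fun f : Fin l → ℝ × ℝ => ∑ i, f i) '' (Set.pi univ fun _ => K) := by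
    ext z
    constructor
    · rintro ⟨f, hf, rfl⟩
      exact ⟨f, fun i _ => hf i, rfl⟩
    · rintro ⟨f, hf, rfl⟩
      exact ⟨f, fun i => hf i (mem_univ i), rfl⟩
  rw [h]
  exact (isCompact_univ_pi fun _ => hK).image (by fun_prop)

lemma interior_iInter_U (n : ℕ) : interior (⋂ j ≥ n, U j) = ∅ := by
  rw [Set.eq_empty_iff_forall_notMem]
  intro z hz
  rw [mem_interior_iff_mem_nhds, Metric.mem_nhds_iff] at hz
  obtain ⟨ε, hε, hball⟩ := hz
  have h1 : ∀ᶠ j in atTop, rho j < ε := rho_tendsto.eventually (gt_mem_nhds hε)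
  obtain ⟨j, hj1, hj2⟩ := (h1.and (eventually_ge_atTop n)).exists
  obtain ⟨t, ht0, ht1, ht2⟩ := miss_U j z
  have h3 : z + t • ((1, 0) : ℝ × ℝ) ∈ Metric.ball z ε := by
    rw [Metric.mem_ball, dist_eq_norm, add_sub_cancel_left, norm_smul, Real.norm_eq_abs,
      abs_of_nonneg ht0]
    have : ‖((1, 0) : ℝ × ℝ)‖ = 1 := by simp [Prod.norm_def]
    rw [this]
    linarith
  have h4 := hball h3
  simp only [mem_iInter] at h4
  exact ht2 (h4 j hj2)

lemma nowhereDense_sumset (l : ℕ) : IsNowhereDense (sumset l K) := by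
  have hcl : ∀ n, IsClosed (⋂ j ≥ n, U j) := fun n =>
    isClosed_iInter fun j => isClosed_iInter fun _ => isClosed_U j
  have hmeag : IsMeagre (⋃ n, ⋂ j ≥ n, U j) := by
    apply isMeagre_iUnion
    intro n
    have : IsNowhereDense (⋂ j ≥ n, U j) := by
      rw [(hcl n).isNowhereDense_iff]
      exact interior_iInter_U n
    exact this.isMeagre
  have hsub : sumset l K ⊆ ⋃ n, ⋂ j ≥ n, U j := by
    rintro z ⟨f, hf, rfl⟩
    choose m hm using fun i => eventually_T (hf i)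
    refine mem_iUnion.2 ⟨max l (Finset.univ.sup m), ?_⟩
    simp only [mem_iInter]
    intro j hj
    have hj1 : l ≤ j := (le_max_left _ _).trans hj
    have hj2 : Finset.univ.sup m ≤ j := (le_max_right _ _).trans hj
    exact sum_mem_U hj1 f fun i => hm i j ((Finset.le_sup (Finset.mem_univ i)).trans hj2)
  have h2 : IsMeagre (sumset l K) := hmeag.mono hsub
  rw [(isCompact_sumset l isCompact_K).isClosed.isNowhereDense_iff,
    interior_eq_empty_iff_dense_compl]
  exact dense_of_mem_residual h2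

end Pool.Agent.R248.LineSum
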